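import Pool.Agent.V11109.PureExt.Det
import Pool.Agent.V11109.PureExt.OK2

/-!
# Pure states on a simple C*-algebra without unique, automorphically equivalent extensions

Let `K` be an uncountable set and `A` the C*-algebra generated by the creation operators on the
full Fock space `ℓ²(words in K)`. It is unital and simple. A state is called countably determined
if it is the only state with its values on some countable set. This property passes from a state
to its unique state extension and back (Hahn-Banach), and it is invariant under automorphisms. The
vacuum state of `A` is pure and not countably determined. The state which is one at all the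
projections `s_{k 0} ... s_{k n} s_{k n}^* ... s_{k 0}^*`, for distinct `k 0, k 1, ...`, is pure and
countably determined.
-/

set_option autoImplicit false
set_option linter.style.haveILetI false

namespace Pool.Agent.Results.MP_8219a1_an.NoUniqueEquivalentExtensions

open Pool.Agent.V11109.PureExt Pool.Agent.V11109.Fock

universe u

/-- There are a simple unital C*-algebra `A` and two pure states `φ`, `ψ` on `A` such that for
every C*-algebra `B` containing `A`, if `φ` and `ψ` have unique state extensions to `B`, then these
extensions are not equivalent under an automorphism of `B`. -/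
theorem result : ∃ (A : Type) (_ : CStarAlgebra A) (φ ψ : A →L[ℂ] ℂ), IsSimpleRing A ∧
    φ ∈ PureStates A ∧ ψ ∈ PureStates A ∧
    ∀ (B : Type u) [NonUnitalCStarAlgebra B] (ι : A →⋆ₙₐ[ℂ] B), Function.Injective ι →
      ∀ φ' ψ' : B →L[ℂ] ℂ, IsUniqueStateExtension ι φ φ' → IsUniqueStateExtension ι ψ ψ' →
        ∀ α : B ≃⋆ₐ[ℂ] B, ¬ ∀ x, φ' x = ψ' (α x) := by
  haveI : Uncountable (Set ℕ) := Cardinal.aleph0_lt_mk_iff.mp (by
    rw [Cardinal.mk_set, Cardinal.mk_nat]; exact Cardinal.cantor _)
  have hk : Function.Injective (fun n : ℕ => ({n} : Set ℕ)) := Set.singleton_injective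
  obtain ⟨g, hg, hgq⟩ := exists_second (fun n : ℕ => ({n} : Set ℕ))
  refine ⟨O (Set ℕ), inferInstance, g, vac (Set ℕ), simple_O, second_pure hk hg hgq, vac_pure,
    ?_⟩
  intro B _ ι hι φ' ψ' hφ hψ α h
  have h1 : CountablyDetermined g := second_cd hk hg hgq
  have h2 : CountablyDetermined φ' := cd_ext hg hφ h1
  have h3 : CountablyDetermined ψ' := cd_aut hψ.1.1 α h h2
  exact vac_not_cd (cd_of_cd_ext hι vac_mem hψ h3)

end Pool.Agent.Results.MP_8219a1_an.NoUniqueEquivalentExtensions
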